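import Pool.Agent.H34.GZ.Targets1

/-!
# Board gz_modules (MP_52e316_nt), row CHN: chains of sublattices along the standard flag
-/

set_option autoImplicit false

namespace Pool.Agent.H62.GZ

open Pool.Agent.H34.GM Pool.Agent.H34.GZ

private theorem flg_mono {m i j : ℕ} (h : i ≤ j) : flg m i ≤ flg m j :=
  fun _ hv l hl => hv l (h.trans hl)

open Classical in
private theorem chn_step (hFLG : T_FLG) (m : ℕ) (H : ℝ) (hH : 1 ≤ H) (p : ℕ) :
    p ≤ m → ∀ K' : AddSubgroup (Fin m → ℤ), K'.relIndex (flg m p) ≠ 0 →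
    ∑' K : Fin p → AddSubgroup (Fin m → ℤ), (if (∀ j, K j ≤ flg m ((j : ℕ) + 1)) ∧ Monotone K ∧
      (∀ j, (K j).relIndex (flg m ((j : ℕ) + 1)) ≠ 0 ∧
        ((K j).relIndex (flg m ((j : ℕ) + 1)) : ℝ) ≤ H) ∧ ∀ j, K j ≤ K' then
      ∏ j, (((K j).relIndex (flg m ((j : ℕ) + 1)) : ℕ) : ENNReal)⁻¹ else 0) ≤
    ENNReal.ofReal ((1 + Real.log H) ^ (p * p)) *
      ∏ j ∈ Finset.range p, ((K'.relIndex (flg m (j + 1)) : ℕ) : ENNReal)⁻¹ := by
  induction p with
  | zero =>
    intro _ K' _
    rw [tsum_fintype]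
    simp only [Finset.univ_unique, Finset.sum_singleton, Finset.univ_eq_empty, Finset.prod_empty,
      Finset.range_zero, mul_zero, pow_zero, ENNReal.ofReal_one, mul_one]
    split_ifs
    · exact le_rfl
    · exact zero_le
  | succ p ih =>
    intro hp K' hK'
    have hL : 0 ≤ Real.log H := Real.log_nonneg hH
    -- split off the last subgroup
    rw [← (Fin.snocEquiv (fun _ : Fin (p + 1) => AddSubgroup (Fin m → ℤ))).tsum_eq,
      ENNReal.tsum_prod']
    -- the chain for the flag sum
    obtain ⟨Kc, hKc⟩ : ∃ Kc : ℕ → AddSubgroup (Fin m → ℤ),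
      Kc = fun j => if j ≤ p + 1 then K' ⊓ flg m j else flg m j := ⟨_, rfl⟩
    have hKc1 : ∀ j, j ≤ p + 1 → Kc j = K' ⊓ flg m j := by
      intro j hj
      rw [hKc]
      exact if_pos hj
    have hKc2 : ∀ j, ¬ j ≤ p + 1 → Kc j = flg m j := by
      intro j hj
      rw [hKc]
      exact if_neg hj
    have hK'0 : ∀ j, j ≤ p + 1 → K'.relIndex (flg m j) ≠ 0 := by
      intro j hj h0
      exact hK' (AddSubgroup.relIndex_eq_zero_of_le_right (flg_mono hj) h0)
    have hle : ∀ j, Kc j ≤ flg m j := by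
      intro j
      by_cases h : j ≤ p + 1
      · rw [hKc1 j h]
        exact inf_le_right
      · rw [hKc2 j h]
    have hmono : ∀ j, Kc j ≤ Kc (j + 1) := by
      intro j
      by_cases h : j + 1 ≤ p + 1
      · rw [hKc1 j (by omega), hKc1 (j + 1) h]
        exact inf_le_inf_left _ (flg_mono (Nat.le_succ j))
      · rw [hKc2 (j + 1) h]
        exact (hle j).trans (flg_mono (Nat.le_succ j))
    have hne : ∀ j, (Kc j).relIndex (flg m j) ≠ 0 := by
      intro j
      by_cases h : j ≤ p + 1
      · rw [hKc1 j h, AddSubgroup.inf_relIndex_right]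
        exact hK'0 j h
      · rw [hKc2 j h, AddSubgroup.relIndex_self]
        exact one_ne_zero
    have hF := hFLG m (p + 1) hp H hH Kc hle hmono hne
    -- the inner sum
    have hinner : ∀ M : AddSubgroup (Fin m → ℤ),
        ∑' K : Fin p → AddSubgroup (Fin m → ℤ),
          (if (∀ j, (Fin.snocEquiv (fun _ : Fin (p + 1) => AddSubgroup (Fin m → ℤ)) (M, K)) j ≤
              flg m ((j : ℕ) + 1)) ∧
            Monotone (Fin.snocEquiv (fun _ : Fin (p + 1) => AddSubgroup (Fin m → ℤ)) (M, K)) ∧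
            (∀ j, ((Fin.snocEquiv (fun _ : Fin (p + 1) => AddSubgroup (Fin m → ℤ)) (M, K))
                j).relIndex (flg m ((j : ℕ) + 1)) ≠ 0 ∧
              (((Fin.snocEquiv (fun _ : Fin (p + 1) => AddSubgroup (Fin m → ℤ)) (M, K))
                j).relIndex (flg m ((j : ℕ) + 1)) : ℝ) ≤ H) ∧
            ∀ j, (Fin.snocEquiv (fun _ : Fin (p + 1) => AddSubgroup (Fin m → ℤ)) (M, K)) j ≤ K' then
          ∏ j, ((((Fin.snocEquiv (fun _ : Fin (p + 1) => AddSubgroup (Fin m → ℤ)) (M, K))
            j).relIndex (flg m ((j : ℕ) + 1)) : ℕ) : ENNReal)⁻¹ else 0) ≤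
        ENNReal.ofReal ((1 + Real.log H) ^ (p * p)) *
          (if M ≤ flg m (p + 1) ∧ M.relIndex (flg m (p + 1)) ≠ 0 ∧
            (M.relIndex (flg m (p + 1)) : ℝ) ≤ H ∧ ∀ j ≤ p + 1, M ⊓ flg m j ≤ Kc j then
            ∏ j ∈ Finset.range (p + 1), ((M.relIndex (flg m (j + 1)) : ℕ) : ENNReal)⁻¹ else 0) := by
      intro M
      have hlast : ∀ K : Fin p → AddSubgroup (Fin m → ℤ),
          (Fin.snocEquiv (fun _ : Fin (p + 1) => AddSubgroup (Fin m → ℤ)) (M, K))
            (Fin.last p) = M := by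
        intro K
        exact Fin.snoc_last (α := fun _ => AddSubgroup (Fin m → ℤ)) M K
      have hcast : ∀ (K : Fin p → AddSubgroup (Fin m → ℤ)) (j : Fin p),
          (Fin.snocEquiv (fun _ : Fin (p + 1) => AddSubgroup (Fin m → ℤ)) (M, K))
            j.castSucc = K j := by
        intro K j
        exact Fin.snoc_castSucc (α := fun _ => AddSubgroup (Fin m → ℤ)) M K j
      by_cases hM : M ≤ flg m (p + 1) ∧ M.relIndex (flg m (p + 1)) ≠ 0 ∧
          (M.relIndex (flg m (p + 1)) : ℝ) ≤ H ∧ M ≤ K'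
      · obtain ⟨hM1, hM2, hM3, hM4⟩ := hM
        rw [if_pos ⟨hM1, hM2, hM3, fun j hj => by
          rw [hKc1 j hj]
          exact inf_le_inf_right _ hM4⟩]
        have hMp : M.relIndex (flg m p) ≠ 0 := fun h0 =>
          hM2 (AddSubgroup.relIndex_eq_zero_of_le_right (flg_mono (Nat.le_succ p)) h0)
        have hI := ih (by omega) M hMp
        rw [Finset.prod_range_succ, ← mul_assoc]
        refine le_trans ?_ (mul_le_mul_left hI _)
        rw [← ENNReal.tsum_mul_right]
        refine ENNReal.tsum_le_tsum fun K => ?_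
        split_ifs with h1 h2
        · rw [Fin.prod_univ_castSucc]
          refine le_of_eq ?_
          rw [hlast]
          simp only [hcast, Fin.val_castSucc, Fin.val_last]
        · exfalso
          refine h2 ⟨fun j => ?_, fun i j hij => ?_, fun j => ?_, fun j => ?_⟩
          · have := h1.1 j.castSucc
            rwa [hcast] at this
          · have := h1.2.1 (show i.castSucc ≤ j.castSucc from hij)
            rwa [hcast, hcast] at this
          · have := h1.2.2.1 j.castSucc
            rwa [hcast] at this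
          · have := h1.2.1 (Fin.le_last j.castSucc)
            rwa [hcast, hlast] at this
        · exact zero_le
        · exact zero_le
      · have hz : ∀ K : Fin p → AddSubgroup (Fin m → ℤ),
          (if (∀ j, (Fin.snocEquiv (fun _ : Fin (p + 1) => AddSubgroup (Fin m → ℤ)) (M, K)) j ≤
              flg m ((j : ℕ) + 1)) ∧
            Monotone (Fin.snocEquiv (fun _ : Fin (p + 1) => AddSubgroup (Fin m → ℤ)) (M, K)) ∧
            (∀ j, ((Fin.snocEquiv (fun _ : Fin (p + 1) => AddSubgroup (Fin m → ℤ)) (M, K))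
                j).relIndex (flg m ((j : ℕ) + 1)) ≠ 0 ∧
              (((Fin.snocEquiv (fun _ : Fin (p + 1) => AddSubgroup (Fin m → ℤ)) (M, K))
                j).relIndex (flg m ((j : ℕ) + 1)) : ℝ) ≤ H) ∧
            ∀ j, (Fin.snocEquiv (fun _ : Fin (p + 1) => AddSubgroup (Fin m → ℤ)) (M, K)) j ≤ K' then
          ∏ j, ((((Fin.snocEquiv (fun _ : Fin (p + 1) => AddSubgroup (Fin m → ℤ)) (M, K))
            j).relIndex (flg m ((j : ℕ) + 1)) : ℕ) : ENNReal)⁻¹ else 0) = 0 := by
          intro K
          refine if_neg fun h1 => hM ⟨?_, ?_, ?_, ?_⟩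
          · have := h1.1 (Fin.last p)
            rwa [hlast] at this
          · have := (h1.2.2.1 (Fin.last p)).1
            rwa [hlast] at this
          · have := (h1.2.2.1 (Fin.last p)).2
            rwa [hlast] at this
          · have := h1.2.2.2 (Fin.last p)
            rwa [hlast] at this
        rw [ENNReal.tsum_eq_zero.2 hz]
        exact zero_le
    refine (ENNReal.tsum_le_tsum hinner).trans ?_
    rw [ENNReal.tsum_mul_left]
    refine (mul_le_mul_right hF _).trans ?_
    rw [← mul_assoc, ← ENNReal.ofReal_mul (by positivity), ← pow_add]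
    have hpr : ∏ j ∈ Finset.range (p + 1),
        (((Kc (j + 1)).relIndex (flg m (j + 1)) : ℕ) : ENNReal)⁻¹ =
        ∏ j ∈ Finset.range (p + 1), ((K'.relIndex (flg m (j + 1)) : ℕ) : ENNReal)⁻¹ := by
      refine Finset.prod_congr rfl fun j hj => ?_
      rw [hKc1 (j + 1) (by have := Finset.mem_range.1 hj; omega), AddSubgroup.inf_relIndex_right]
    rw [hpr]
    refine mul_le_mul_left (ENNReal.ofReal_le_ofReal ?_) _
    exact pow_le_pow_right₀ (by linarith) (by nlinarith)

theorem pf_CHN : T_FLG → T_CHN := by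
  classical
  intro hFLG m H hH
  have h := chn_step hFLG m H hH m le_rfl ⊤ (by
    rw [AddSubgroup.relIndex_top_left]
    exact one_ne_zero)
  have e1 : ∏ j ∈ Finset.range m,
      (((⊤ : AddSubgroup (Fin m → ℤ)).relIndex (flg m (j + 1)) : ℕ) : ENNReal)⁻¹ = 1 := by
    refine Finset.prod_eq_one fun j _ => ?_
    rw [AddSubgroup.relIndex_top_left]
    simp
  rw [e1, mul_one] at h
  refine le_trans (le_of_eq ?_) h
  refine tsum_congr fun K => ?_
  congr 1
  simp only [le_top, implies_true, and_true]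

end Pool.Agent.H62.GZ
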