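import Pool.Agent.H34.GZ.Targets1

/-!
# Board gz_modules (MP_52e316_nt), row EGX: the product estimate
-/

set_option autoImplicit false

namespace Pool.Agent.H62.GZ

open Pool.Agent.H34.GM Pool.Agent.H34.GZ

private theorem one_add_le {u v : ℝ} (hv : v ≤ Real.exp u) :
    1 + v ≤ 2 * Real.exp (max u 0) := by
  have h1 : Real.exp u ≤ Real.exp (max u 0) := Real.exp_le_exp.2 (le_max_left _ _)
  have h2 : 1 ≤ Real.exp (max u 0) := Real.one_le_exp (le_max_right _ _)
  linarith

private theorem skw_exp {m : ℕ} (a : Fin m → ℝ) (ha : ∀ i, 0 < a i) (s : ℝ) :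
    skw a = Real.exp (∑ i, ∑ j, if i < j then
      (Real.log (a j) + s) - (Real.log (a i) + s) else 0) := by
  unfold skw
  rw [Real.exp_sum]
  refine Finset.prod_congr rfl fun i _ => ?_
  rw [Real.exp_sum]
  refine Finset.prod_congr rfl fun j _ => ?_
  split_ifs
  · rw [add_sub_add_right_eq_sub, Real.exp_sub, Real.exp_log (ha j), Real.exp_log (ha i)]
  · rw [Real.exp_zero]

theorem pf_EGX : T_INQ → T_EGX := by
  intro hINQ m c hm hc
  obtain ⟨d, hd⟩ : ∃ d, d = max c 1 := ⟨_, rfl⟩
  have hd1 : 1 ≤ d := hd ▸ le_max_right _ _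
  have hcd : c ≤ d := hd ▸ le_max_left _ _
  have hd0 : 0 < d := lt_of_lt_of_le one_pos hd1
  have hm0 : (0 : ℝ) < m := by exact_mod_cast hm
  refine ⟨4 ^ (m * m) * ((d ^ (m + 1)) ^ m * (d ^ (m + 1)) ^ m), by positivity, ?_⟩
  intro V A q w hV hA hVm hAm hq hw hAV hprod
  have hq0 : 0 < q := lt_of_lt_of_le one_pos hq
  obtain ⟨x, hx⟩ : ∃ x : Fin m → ℝ, x = fun i => Real.log (V i) + Real.log d := ⟨_, rfl⟩
  obtain ⟨y, hy⟩ : ∃ y : Fin m → ℝ, y = fun i => Real.log (A i) + 0 := ⟨_, rfl⟩
  obtain ⟨S, hS⟩ : ∃ S, S = ∑ i, x i - ∑ i, y i := ⟨_, rfl⟩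
  obtain ⟨Q, hQ⟩ : ∃ Q, Q = max (Real.log q) (S / m) := ⟨_, rfl⟩
  have hlq : 0 ≤ Real.log q := Real.log_nonneg hq
  have hxm : Monotone x := by
    intro i j hij
    rw [hx]
    have := Real.log_le_log (hV i) (hVm hij)
    simp only
    linarith
  have hym : Monotone y := by
    intro i j hij
    rw [hy]
    have := Real.log_le_log (hA i) (hAm hij)
    simp only
    linarith
  have hyx : ∀ i, y i ≤ x i := by
    intro i
    rw [hx, hy]
    have h1 : A i ≤ d * V i := (hAV i).trans (mul_le_mul_of_nonneg_right hcd (hV i).le)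
    have h2 := Real.log_le_log (hA i) h1
    rw [Real.log_mul hd0.ne' (hV i).ne'] at h2
    simp only
    linarith
  have hQ0 : 0 ≤ Q := hQ ▸ le_max_of_le_left hlq
  have hSQ : S / m ≤ Q := hQ ▸ le_max_right _ _
  have hsum : ∑ i, x i ≤ ∑ i, y i + m * Q := by
    have : S ≤ m * Q := by
      have := (div_le_iff₀ hm0).1 hSQ
      linarith
    linarith
  have hmain := hINQ m x y Q hxm hym hyx hQ0 hsum
  -- the size of `exp S`
  have hES : Real.exp S ≤ d ^ (m + 1) * w := by
    have h1 : Real.exp (∑ i, x i) = (∏ i, V i) * d ^ m := by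
      rw [Real.exp_sum]
      have : ∀ i ∈ Finset.univ, Real.exp (x i) = V i * d := by
        intro i _
        rw [hx]
        simp only
        rw [Real.exp_add, Real.exp_log (hV i), Real.exp_log hd0]
      rw [Finset.prod_congr rfl this, Finset.prod_mul_distrib, Finset.prod_const,
        Finset.card_univ, Fintype.card_fin]
    have h2 : Real.exp (∑ i, y i) = ∏ i, A i := by
      rw [Real.exp_sum]
      refine Finset.prod_congr rfl fun i _ => ?_
      rw [hy]
      simp only
      rw [add_zero, Real.exp_log (hA i)]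
    have hA0 : 0 < ∏ i, A i := Finset.prod_pos fun i _ => hA i
    rw [hS, Real.exp_sub, h1, h2, div_le_iff₀ hA0]
    calc (∏ i, V i) * d ^ m ≤ (c * w * ∏ i, A i) * d ^ m :=
          mul_le_mul_of_nonneg_right hprod (by positivity)
      _ ≤ (d * w * ∏ i, A i) * d ^ m := by
          refine mul_le_mul_of_nonneg_right ?_ (by positivity)
          refine mul_le_mul_of_nonneg_right ?_ hA0.le
          exact mul_le_mul_of_nonneg_right hcd hw.le
      _ = d ^ (m + 1) * w * ∏ i, A i := by ring
  -- the two skewness factors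
  have hsk : skw A * skw V = Real.exp (∑ i, ∑ j, if i < j then (x j - x i) + (y j - y i) else 0) := by
    rw [skw_exp A hA 0, skw_exp V hV (Real.log d), ← Real.exp_add, ← Finset.sum_add_distrib]
    congr 1
    refine Finset.sum_congr rfl fun i _ => ?_
    rw [← Finset.sum_add_distrib]
    refine Finset.sum_congr rfl fun j _ => ?_
    rw [hx, hy]
    split_ifs
    · ring
    · simp
  -- the exponent
  obtain ⟨R, hR⟩ : ∃ R, R = max (S - m * Real.log q) 0 := ⟨_, rfl⟩
  have hQR : m * (Q - Real.log q) = R := by
    rw [hR, hQ]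
    rcases le_total (Real.log q) (S / m) with h | h
    · rw [max_eq_right h, max_eq_left]
      · rw [mul_sub, mul_div_cancel₀ _ hm0.ne']
      · have := (le_div_iff₀ hm0).1 h
        linarith
    · rw [max_eq_left h, max_eq_right]
      · simp
      · have := (div_le_iff₀ hm0).1 h
        linarith
  have hexp : ∑ i, ∑ j, (max (x i - y j) 0 + max (x i - Real.log q - y j) 0) ≤
      m * S + m * R + ∑ i, ∑ j, (if i < j then (x j - x i) + (y j - y i) else 0) := by
    have h1 : ∀ i j : Fin m, max (x i - y j) 0 + max (x i - Real.log q - y j) 0 ≤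
        (max (y j - x i) 0 + max (x i - Q - y j) 0) + ((x i - y j) + (Q - Real.log q)) := by
      intro i j
      have hQq : Real.log q ≤ Q := hQ ▸ le_max_left _ _
      have e1 : max (x i - y j) 0 = max (y j - x i) 0 + (x i - y j) := by
        rcases le_total (x i) (y j) with h | h
        · rw [max_eq_right (by linarith), max_eq_left (by linarith)]; ring
        · rw [max_eq_left (by linarith), max_eq_right (by linarith)]; ring
      have e2 : max (x i - Real.log q - y j) 0 ≤ max (x i - Q - y j) 0 + (Q - Real.log q) := by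
        refine max_le ?_ ?_
        · have := le_max_left (x i - Q - y j) 0
          linarith
        · have := le_max_right (x i - Q - y j) 0
          linarith
      linarith
    have h2 : ∑ i : Fin m, ∑ j : Fin m, ((x i - y j) + (Q - Real.log q)) = m * S + m * R := by
      have a1 : ∑ i : Fin m, ∑ j : Fin m, (x i - y j) = m * S := by
        simp only [Finset.sum_sub_distrib, Finset.sum_const, Finset.card_univ, Fintype.card_fin,
          nsmul_eq_mul]
        rw [← Finset.mul_sum, hS]
        ring
      have a2 : ∑ i : Fin m, ∑ j : Fin m, (Q - Real.log q) = m * R := by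
        simp only [Finset.sum_const, Finset.card_univ, Fintype.card_fin, nsmul_eq_mul]
        rw [hQR]
      simp only [Finset.sum_add_distrib]
      rw [a1, a2]
    calc ∑ i, ∑ j, (max (x i - y j) 0 + max (x i - Real.log q - y j) 0) ≤
          ∑ i : Fin m, ∑ j : Fin m, ((max (y j - x i) 0 + max (x i - Q - y j) 0) +
            ((x i - y j) + (Q - Real.log q))) :=
          Finset.sum_le_sum fun i _ => Finset.sum_le_sum fun j _ => h1 i j
      _ = ∑ i : Fin m, ∑ j : Fin m, (max (y j - x i) 0 + max (x i - Q - y j) 0) +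
            (m * S + m * R) := by
          rw [← h2, ← Finset.sum_add_distrib]
          refine Finset.sum_congr rfl fun i _ => ?_
          rw [← Finset.sum_add_distrib]
      _ ≤ _ := by linarith
  -- the product
  have hprodle : ∏ i, ∏ j, ((1 + V i / A j) * (1 + V i / (q * A j))) ≤
      4 ^ (m * m) * Real.exp (∑ i, ∑ j, (max (x i - y j) 0 + max (x i - Real.log q - y j) 0)) := by
    have h1 : ∀ i j : Fin m, (1 + V i / A j) * (1 + V i / (q * A j)) ≤
        4 * Real.exp (max (x i - y j) 0 + max (x i - Real.log q - y j) 0) := by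
      intro i j
      have e0 : Real.exp (x i - y j) = d * (V i / A j) := by
        rw [hx, hy]
        simp only
        rw [add_zero, Real.exp_sub, Real.exp_add, Real.exp_log (hV i), Real.exp_log hd0,
          Real.exp_log (hA j)]
        ring
      have e1 : V i / A j ≤ Real.exp (x i - y j) := by
        rw [e0]
        have : 0 < V i / A j := div_pos (hV i) (hA j)
        nlinarith
      have e2 : V i / (q * A j) ≤ Real.exp (x i - Real.log q - y j) := by
        have e3 : x i - Real.log q - y j = (x i - y j) - Real.log q := by ring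
        rw [e3, Real.exp_sub, Real.exp_log hq0, mul_comm q, ← div_div]
        exact div_le_div_of_nonneg_right e1 hq0.le
      have f1 := one_add_le e1
      have f2 := one_add_le e2
      have g1 : 0 ≤ V i / (q * A j) := (div_pos (hV i) (mul_pos hq0 (hA j))).le
      calc (1 + V i / A j) * (1 + V i / (q * A j)) ≤
            (2 * Real.exp (max (x i - y j) 0)) * (2 * Real.exp (max (x i - Real.log q - y j) 0)) :=
            mul_le_mul f1 f2 (by linarith) (by positivity)
        _ = 4 * Real.exp (max (x i - y j) 0 + max (x i - Real.log q - y j) 0) := by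
            rw [Real.exp_add]
            ring
    have h0 : ∀ i j : Fin m, 0 ≤ (1 + V i / A j) * (1 + V i / (q * A j)) := by
      intro i j
      have a1 : 0 < V i / A j := div_pos (hV i) (hA j)
      have a2 : 0 < V i / (q * A j) := div_pos (hV i) (mul_pos hq0 (hA j))
      positivity
    calc ∏ i, ∏ j, ((1 + V i / A j) * (1 + V i / (q * A j))) ≤
          ∏ i : Fin m, ∏ j : Fin m,
            (4 * Real.exp (max (x i - y j) 0 + max (x i - Real.log q - y j) 0)) :=
          Finset.prod_le_prod (fun i _ => Finset.prod_nonneg fun j _ => h0 i j)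
            fun i _ => Finset.prod_le_prod (fun j _ => h0 i j) fun j _ => h1 i j
      _ = _ := by
          simp only [Finset.prod_mul_distrib, Finset.prod_const, Finset.card_univ,
            Fintype.card_fin]
          rw [← pow_mul, Real.exp_sum]
          congr 1
          refine Finset.prod_congr rfl fun i _ => ?_
          rw [Real.exp_sum]
  -- the two exponentials
  have hS1 : Real.exp (m * S) ≤ (d ^ (m + 1)) ^ m * w ^ m := by
    rw [← mul_pow, Real.exp_nat_mul]
    exact pow_le_pow_left₀ (Real.exp_pos _).le hES _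
  have hR1 : Real.exp (m * R) ≤ (d ^ (m + 1)) ^ m * (1 + w / q ^ m) ^ m := by
    rw [← mul_pow, Real.exp_nat_mul]
    refine pow_le_pow_left₀ (Real.exp_pos _).le ?_ _
    have hD : 1 ≤ d ^ (m + 1) := one_le_pow₀ hd1
    have hwq : 0 < w / q ^ m := by positivity
    rw [hR]
    rcases le_total (S - m * Real.log q) 0 with h | h
    · rw [max_eq_right h, Real.exp_zero]
      nlinarith
    · rw [max_eq_left h, Real.exp_sub, Real.exp_nat_mul, Real.exp_log hq0]
      calc Real.exp S / q ^ m ≤ d ^ (m + 1) * w / q ^ m :=
            div_le_div_of_nonneg_right hES (by positivity)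
        _ = d ^ (m + 1) * (w / q ^ m) := by ring
        _ ≤ d ^ (m + 1) * (1 + w / q ^ m) := by
            refine mul_le_mul_of_nonneg_left ?_ (by positivity)
            linarith
  refine hprodle.trans ?_
  have hE := Real.exp_le_exp.2 hexp
  rw [Real.exp_add, Real.exp_add, ← hsk] at hE
  have hskp : 0 ≤ skw A * skw V := by rw [hsk]; exact (Real.exp_pos _).le
  calc 4 ^ (m * m) * Real.exp (∑ i, ∑ j, (max (x i - y j) 0 + max (x i - Real.log q - y j) 0)) ≤
        4 ^ (m * m) * (Real.exp (m * S) * Real.exp (m * R) * (skw A * skw V)) :=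
        mul_le_mul_of_nonneg_left hE (by positivity)
    _ ≤ 4 ^ (m * m) * (((d ^ (m + 1)) ^ m * w ^ m) * ((d ^ (m + 1)) ^ m * (1 + w / q ^ m) ^ m) *
          (skw A * skw V)) := by
        refine mul_le_mul_of_nonneg_left ?_ (by positivity)
        refine mul_le_mul_of_nonneg_right ?_ hskp
        exact mul_le_mul hS1 hR1 (Real.exp_pos _).le (by positivity)
    _ = _ := by ring

end Pool.Agent.H62.GZ
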